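import Pool.Agent.Run7.h96.IX.Stm

/-!
# Project IX, piece MUL
-/

set_option autoImplicit false

open Finset Filter Topology

namespace Run7.h642.IX

open Run7.h96.IX

theorem t_MUL : S_MUL := by
  intro m n lam lam' A B A' B'
  classical
  let J : Finset (Fin m) × Finset (Fin n) → Finset (Fin (m + n)) := fun p =>
    (p.1.disjSum p.2).map finSumFinEquiv.toEmbedding
  have hmem : ∀ p, ∀ x : Fin m ⊕ Fin n, finSumFinEquiv x ∈ J p ↔ x ∈ p.1.disjSum p.2 := by
    intro p x
    exact Finset.mem_map' finSumFinEquiv.toEmbedding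
  have hJ : Function.Injective J := by
    intro p q h
    have h1 : ∀ x : Fin m ⊕ Fin n, x ∈ p.1.disjSum p.2 ↔ x ∈ q.1.disjSum q.2 := by
      intro x
      rw [← hmem, ← hmem, h]
    apply Prod.ext
    · ext i
      have h2 := h1 (Sum.inl i)
      rwa [Finset.inl_mem_disjSum, Finset.inl_mem_disjSum] at h2
    · ext i
      have h2 := h1 (Sum.inr i)
      rwa [Finset.inr_mem_disjSum, Finset.inr_mem_disjSum] at h2
  have hJi : ∀ p q, J p ∩ J q = J (p.1 ∩ q.1, p.2 ∩ q.2) := by
    intro p q
    ext y
    obtain ⟨x, rfl⟩ := finSumFinEquiv.surjective y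
    rw [Finset.mem_inter, hmem, hmem, hmem]
    rcases x with i | i
    · rw [Finset.inl_mem_disjSum, Finset.inl_mem_disjSum, Finset.inl_mem_disjSum, Finset.mem_inter]
    · rw [Finset.inr_mem_disjSum, Finset.inr_mem_disjSum, Finset.inr_mem_disjSum, Finset.mem_inter]
  have hJc : ∀ p, (J p).card = p.1.card + p.2.card := by
    intro p
    show ((p.1.disjSum p.2).map finSumFinEquiv.toEmbedding).card = _
    rw [Finset.card_map, Finset.card_disjSum]
  refine ⟨(A ×ˢ A').image J, (B ×ˢ B').image J, ?_, ?_, ?_⟩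
  · rw [Finset.card_image_of_injective _ hJ, Finset.card_product]
  · rw [Finset.card_image_of_injective _ hJ, Finset.card_product]
  · unfold cnt
    rw [← Finset.card_product]
    refine Finset.card_le_card_of_injOn
      (fun x => (J (x.1.1, x.2.1), J (x.1.2, x.2.2))) ?_ ?_
    · intro x hx
      rw [Finset.mem_coe, Finset.mem_product, Finset.mem_filter, Finset.mem_filter,
        Finset.mem_product, Finset.mem_product] at hx
      obtain ⟨⟨⟨h1, h2⟩, h3⟩, ⟨h4, h5⟩, h6⟩ := hx
      rw [Finset.mem_coe, Finset.mem_filter, Finset.mem_product]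
      refine ⟨⟨Finset.mem_image_of_mem J (Finset.mem_product.2 ⟨h1, h4⟩),
        Finset.mem_image_of_mem J (Finset.mem_product.2 ⟨h2, h5⟩)⟩, ?_⟩
      rw [hJi, hJc, h3, h6]
    · intro x _ y _ h
      have h1 := hJ (congrArg Prod.fst h)
      have h2 := hJ (congrArg Prod.snd h)
      have a1 := congrArg Prod.fst h1
      have a2 := congrArg Prod.snd h1
      have b1 := congrArg Prod.fst h2
      have b2 := congrArg Prod.snd h2
      exact Prod.ext (Prod.ext a1 b1) (Prod.ext a2 b2)

end Run7.h642.IX
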