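import Pool.Agent.Run7.h96.IX.Stm

/-!
# Project IX, piece PIG
-/

set_option autoImplicit false

open Finset Filter Topology

namespace Run7.h642.IX

open Run7.h96.IX

/-- one term of the binomial theorem -/
theorem choose_le (n i : ℕ) (hi : i ≤ n) (s a : ℝ) (hs : 0 ≤ s) (ha : 0 ≤ a) (ha1 : a ≤ 1) :
    (n.choose i : ℝ) ^ s * ((a ^ s) ^ i * ((1 - a) ^ s) ^ (n - i)) ≤ 1 := by
  have h1 : (n.choose i : ℝ) * (a ^ i * (1 - a) ^ (n - i)) ≤ 1 := by
    have h2 : ∑ m ∈ range (n + 1), a ^ m * (1 - a) ^ (n - m) * (n.choose m : ℝ) = 1 := by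
      rw [← add_pow, add_sub_cancel, one_pow]
    have h3 : a ^ i * (1 - a) ^ (n - i) * (n.choose i : ℝ) ≤
        ∑ m ∈ range (n + 1), a ^ m * (1 - a) ^ (n - m) * (n.choose m : ℝ) :=
      Finset.single_le_sum (f := fun m => a ^ m * (1 - a) ^ (n - m) * (n.choose m : ℝ))
        (fun m _ => mul_nonneg (mul_nonneg (pow_nonneg ha _) (pow_nonneg (by linarith) _))
          (Nat.cast_nonneg _)) (Finset.mem_range.2 (by omega))
    rw [h2] at h3
    linarith
  have h4 : (n.choose i : ℝ) ^ s * ((a ^ s) ^ i * ((1 - a) ^ s) ^ (n - i)) =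
      ((n.choose i : ℝ) * (a ^ i * (1 - a) ^ (n - i))) ^ s := by
    have p1 : 0 ≤ a ^ i := pow_nonneg ha _
    have p2 : 0 ≤ (1 - a) ^ (n - i) := pow_nonneg (by linarith) _
    rw [Real.mul_rpow (Nat.cast_nonneg _) (mul_nonneg p1 p2), Real.mul_rpow p1 p2,
      ← Real.rpow_natCast (a ^ s), ← Real.rpow_mul ha, mul_comm s (i : ℝ), Real.rpow_mul ha,
      Real.rpow_natCast, ← Real.rpow_natCast ((1 - a) ^ s),
      ← Real.rpow_mul (by linarith : (0 : ℝ) ≤ 1 - a), mul_comm s (((n - i : ℕ)) : ℝ),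
      Real.rpow_mul (by linarith : (0 : ℝ) ≤ 1 - a), Real.rpow_natCast]
  rw [h4]
  exact Real.rpow_le_one (mul_nonneg (Nat.cast_nonneg _) (mul_nonneg (pow_nonneg ha _)
    (pow_nonneg (by linarith) _))) h1 hs

theorem t_PIG : S_ID → S_PIG := by
  intro hID n s x a b hs hx ha ha1 hb hb1
  classical
  have h1 := hID n (a ^ s) ((1 - a) ^ s) (b ^ s) ((1 - b) ^ s) x
  have hg : (1 - a) ^ s * (1 - b) ^ s + (1 - a) ^ s * b ^ s + a ^ s * (1 - b) ^ s +
      x * (a ^ s * b ^ s) = g s x a b := rfl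
  rw [hg] at h1
  have ua : 0 ≤ a ^ s := Real.rpow_nonneg ha _
  have ua' : 0 ≤ (1 - a) ^ s := Real.rpow_nonneg (by linarith) _
  have ub : 0 ≤ b ^ s := Real.rpow_nonneg hb _
  have ub' : 0 ≤ (1 - b) ^ s := Real.rpow_nonneg (by linarith) _
  let key : Finset (Fin n) × Finset (Fin n) → ℕ × ℕ × ℕ := fun p =>
    (p.1.card, p.2.card, (p.1 ∩ p.2).card)
  let I : Finset (ℕ × ℕ × ℕ) := range (n + 1) ×ˢ (range (n + 1) ×ˢ range (n + 1))
  let U : ℕ → ℝ := fun i => (a ^ s) ^ i * ((1 - a) ^ s) ^ (n - i)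
  let W : ℕ → ℝ := fun i => (b ^ s) ^ i * ((1 - b) ^ s) ^ (n - i)
  have hU : ∀ i, 0 ≤ U i := fun i => mul_nonneg (pow_nonneg ua _) (pow_nonneg ua' _)
  have hW : ∀ i, 0 ≤ W i := fun i => mul_nonneg (pow_nonneg ub _) (pow_nonneg ub' _)
  let G : Finset (Fin n) × Finset (Fin n) → ℝ := fun p =>
    x ^ ((p.1 ∩ p.2).card) * U p.1.card * W p.2.card
  have hcard : ∀ t : Finset (Fin n), t.card ∈ range (n + 1) := fun t => by
    have := Finset.card_le_univ t
    rw [Fintype.card_fin] at this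
    exact Finset.mem_range.2 (by omega)
  have hmaps : ∀ p ∈ (univ : Finset (Finset (Fin n) × Finset (Fin n))), key p ∈ I := fun p _ =>
    Finset.mem_product.2 ⟨hcard _, Finset.mem_product.2 ⟨hcard _, hcard _⟩⟩
  have h2 : ∑ t ∈ I, ∑ p ∈ univ.filter (fun p => key p = t), G p = g s x a b ^ n := by
    rw [Finset.sum_fiberwise_of_maps_to hmaps, ← h1, ← Finset.univ_product_univ,
      Finset.sum_product]
  have h3 : ∀ t ∈ I, ∑ p ∈ univ.filter (fun p => key p = t), G p ≤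
      (cnt t.2.2 (powersetCard t.1 (univ : Finset (Fin n))) (powersetCard t.2.1 univ) : ℝ) *
        (x ^ t.2.2 * U t.1 * W t.2.1) := by
    intro t _
    have h4 : ∑ p ∈ univ.filter (fun p => key p = t), G p =
        ((univ.filter (fun p => key p = t)).card : ℝ) * (x ^ t.2.2 * U t.1 * W t.2.1) := by
      rw [← nsmul_eq_mul, ← Finset.sum_const]
      refine Finset.sum_congr rfl fun p hp => ?_
      have h5 := (Finset.mem_filter.1 hp).2
      rw [← h5]
    rw [h4]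
    refine mul_le_mul_of_nonneg_right ?_ (mul_nonneg (mul_nonneg (by positivity) (hU _)) (hW _))
    have h6 : (univ.filter (fun p => key p = t)).card ≤
        cnt t.2.2 (powersetCard t.1 (univ : Finset (Fin n))) (powersetCard t.2.1 univ) := by
      refine Finset.card_le_card fun p hp => ?_
      have h5 := (Finset.mem_filter.1 hp).2
      rw [Finset.mem_filter, Finset.mem_product, Finset.mem_powersetCard,
        Finset.mem_powersetCard, ← h5]
      exact ⟨⟨⟨Finset.subset_univ _, rfl⟩, Finset.subset_univ _, rfl⟩, rfl⟩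
    exact_mod_cast h6
  have hIc : I.card = (n + 1) ^ 3 := by
    show (range (n + 1) ×ˢ (range (n + 1) ×ˢ range (n + 1))).card = _
    rw [Finset.card_product, Finset.card_product, Finset.card_range]
    ring
  have hIn : I.Nonempty := ⟨(0, 0, 0), Finset.mem_product.2 ⟨Finset.mem_range.2 (Nat.succ_pos n),
    Finset.mem_product.2 ⟨Finset.mem_range.2 (Nat.succ_pos n), Finset.mem_range.2 (Nat.succ_pos n)⟩⟩⟩
  have hn3 : (0 : ℝ) < ((n : ℝ) + 1) ^ 3 := by positivity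
  obtain ⟨t, ht, h4⟩ := Finset.exists_le_of_sum_le (s := I)
    (f := fun _ => g s x a b ^ n / ((n : ℝ) + 1) ^ 3)
    (g := fun t => ∑ p ∈ univ.filter (fun p => key p = t), G p) hIn (by
      rw [h2, Finset.sum_const, hIc, nsmul_eq_mul]
      push_cast
      rw [mul_div_cancel₀ _ hn3.ne'])
  obtain ⟨hi, hj⟩ := Finset.mem_product.1 ht
  obtain ⟨hj, hl⟩ := Finset.mem_product.1 hj
  have hi' : t.1 ≤ n := by have := Finset.mem_range.1 hi; omega
  have hj' : t.2.1 ≤ n := by have := Finset.mem_range.1 hj; omega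
  have hl' : t.2.2 ≤ n := by have := Finset.mem_range.1 hl; omega
  refine ⟨t.1, t.2.1, t.2.2, hi', hj', hl', ?_⟩
  set c : ℝ := (cnt t.2.2 (powersetCard t.1 (univ : Finset (Fin n)))
    (powersetCard t.2.1 univ) : ℝ) with hc
  have hc0 : 0 ≤ c := Nat.cast_nonneg _
  have h5 : g s x a b ^ n ≤ ((n : ℝ) + 1) ^ 3 * (c * (x ^ t.2.2 * U t.1 * W t.2.1)) := by
    have h6 := h4.trans (h3 t ht)
    rw [div_le_iff₀ hn3] at h6
    linarith
  have hC1 := choose_le n t.1 hi' s a hs ha ha1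
  have hC2 := choose_le n t.2.1 hj' s b hs hb hb1
  have c1 : (0 : ℝ) ≤ (n.choose t.1 : ℝ) ^ s := Real.rpow_nonneg (Nat.cast_nonneg _) _
  have c2 : (0 : ℝ) ≤ (n.choose t.2.1 : ℝ) ^ s := Real.rpow_nonneg (Nat.cast_nonneg _) _
  rw [Real.mul_rpow (Nat.cast_nonneg _) (Nat.cast_nonneg _)]
  calc g s x a b ^ n * ((n.choose t.1 : ℝ) ^ s * (n.choose t.2.1 : ℝ) ^ s)
      ≤ ((n : ℝ) + 1) ^ 3 * (c * (x ^ t.2.2 * U t.1 * W t.2.1)) *
        ((n.choose t.1 : ℝ) ^ s * (n.choose t.2.1 : ℝ) ^ s) :=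
        mul_le_mul_of_nonneg_right h5 (mul_nonneg c1 c2)
    _ = ((n : ℝ) + 1) ^ 3 * x ^ t.2.2 * c * (((n.choose t.1 : ℝ) ^ s * U t.1) *
        ((n.choose t.2.1 : ℝ) ^ s * W t.2.1)) := by ring
    _ ≤ ((n : ℝ) + 1) ^ 3 * x ^ t.2.2 * c * 1 := by
        refine mul_le_mul_of_nonneg_left ?_ (mul_nonneg (by positivity) hc0)
        exact mul_le_one₀ hC1 (mul_nonneg c2 (hW _)) hC2
    _ = ((n : ℝ) + 1) ^ 3 * x ^ t.2.2 * c := mul_one _

end Run7.h642.IX
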