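import Pool.Agent.Run7.h96.IX.Stm2
import Pool.Agent.Run7.h642.IX.PIG

/-!
# Project IX, piece PIG0
-/

set_option autoImplicit false

open Finset Filter Topology

namespace Run7.h642.IX

open Run7.h96.IX

theorem t_PIG0 : S_ID → S_PIG0 := by
  intro hID n s a b hs ha ha1 hb hb1
  classical
  have h1 := hID n (a ^ s) ((1 - a) ^ s) (b ^ s) ((1 - b) ^ s) 0
  have hg : (1 - a) ^ s * (1 - b) ^ s + (1 - a) ^ s * b ^ s + a ^ s * (1 - b) ^ s +
      0 * (a ^ s * b ^ s) = g s 0 a b := rfl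
  rw [hg] at h1
  have ua : 0 ≤ a ^ s := Real.rpow_nonneg ha _
  have ua' : 0 ≤ (1 - a) ^ s := Real.rpow_nonneg (by linarith) _
  have ub : 0 ≤ b ^ s := Real.rpow_nonneg hb _
  have ub' : 0 ≤ (1 - b) ^ s := Real.rpow_nonneg (by linarith) _
  let key : Finset (Fin n) × Finset (Fin n) → ℕ × ℕ := fun p => (p.1.card, p.2.card)
  let I : Finset (ℕ × ℕ) := range (n + 1) ×ˢ range (n + 1)
  let U : ℕ → ℝ := fun i => (a ^ s) ^ i * ((1 - a) ^ s) ^ (n - i)
  let W : ℕ → ℝ := fun i => (b ^ s) ^ i * ((1 - b) ^ s) ^ (n - i)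
  have hU : ∀ i, 0 ≤ U i := fun i => mul_nonneg (pow_nonneg ua _) (pow_nonneg ua' _)
  have hW : ∀ i, 0 ≤ W i := fun i => mul_nonneg (pow_nonneg ub _) (pow_nonneg ub' _)
  let G : Finset (Fin n) × Finset (Fin n) → ℝ := fun p =>
    (0 : ℝ) ^ ((p.1 ∩ p.2).card) * U p.1.card * W p.2.card
  have hcard : ∀ t : Finset (Fin n), t.card ∈ range (n + 1) := fun t => by
    have := Finset.card_le_univ t
    rw [Fintype.card_fin] at this
    exact Finset.mem_range.2 (by omega)
  have hmaps : ∀ p ∈ (univ : Finset (Finset (Fin n) × Finset (Fin n))), key p ∈ I := fun p _ =>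
    Finset.mem_product.2 ⟨hcard _, hcard _⟩
  have h2 : ∑ t ∈ I, ∑ p ∈ univ.filter (fun p => key p = t), G p = g s 0 a b ^ n := by
    rw [Finset.sum_fiberwise_of_maps_to hmaps, ← h1, ← Finset.univ_product_univ,
      Finset.sum_product]
  have h3 : ∀ t ∈ I, ∑ p ∈ univ.filter (fun p => key p = t), G p ≤
      (cnt 0 (powersetCard t.1 (univ : Finset (Fin n))) (powersetCard t.2 univ) : ℝ) *
        (U t.1 * W t.2) := by
    intro t _
    have h4 : ∑ p ∈ univ.filter (fun p => key p = t), G p =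
        (((univ.filter (fun p => key p = t)).filter (fun p => (p.1 ∩ p.2).card = 0)).card : ℝ) *
          (U t.1 * W t.2) := by
      rw [← nsmul_eq_mul, ← Finset.sum_const, Finset.sum_filter (fun p :
        Finset (Fin n) × Finset (Fin n) => (p.1 ∩ p.2).card = 0)]
      refine Finset.sum_congr rfl fun p hp => ?_
      have h5 := (Finset.mem_filter.1 hp).2
      rw [← h5]
      show (0 : ℝ) ^ ((p.1 ∩ p.2).card) * U p.1.card * W p.2.card = _
      split_ifs with h6
      · rw [h6, pow_zero, one_mul]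
      · rw [zero_pow h6, zero_mul, zero_mul]
    rw [h4]
    refine mul_le_mul_of_nonneg_right ?_ (mul_nonneg (hU _) (hW _))
    have h6 : ((univ.filter (fun p => key p = t)).filter (fun p => (p.1 ∩ p.2).card = 0)).card ≤
        cnt 0 (powersetCard t.1 (univ : Finset (Fin n))) (powersetCard t.2 univ) := by
      refine Finset.card_le_card fun p hp => ?_
      obtain ⟨h7, h8⟩ := Finset.mem_filter.1 hp
      have h5 := (Finset.mem_filter.1 h7).2
      rw [Finset.mem_filter, Finset.mem_product, Finset.mem_powersetCard,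
        Finset.mem_powersetCard, ← h5]
      exact ⟨⟨⟨Finset.subset_univ _, rfl⟩, Finset.subset_univ _, rfl⟩, h8⟩
    exact_mod_cast h6
  have hIc : I.card = (n + 1) ^ 2 := by
    show (range (n + 1) ×ˢ range (n + 1)).card = _
    rw [Finset.card_product, Finset.card_range]
    ring
  have hIn : I.Nonempty := ⟨(0, 0), Finset.mem_product.2 ⟨Finset.mem_range.2 (Nat.succ_pos n),
    Finset.mem_range.2 (Nat.succ_pos n)⟩⟩
  have hn3 : (0 : ℝ) < ((n : ℝ) + 1) ^ 2 := by positivity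
  obtain ⟨t, ht, h4⟩ := Finset.exists_le_of_sum_le (s := I)
    (f := fun _ => g s 0 a b ^ n / ((n : ℝ) + 1) ^ 2)
    (g := fun t => ∑ p ∈ univ.filter (fun p => key p = t), G p) hIn (by
      rw [h2, Finset.sum_const, hIc, nsmul_eq_mul]
      push_cast
      rw [mul_div_cancel₀ _ hn3.ne'])
  obtain ⟨hi, hj⟩ := Finset.mem_product.1 ht
  have hi' : t.1 ≤ n := by have := Finset.mem_range.1 hi; omega
  have hj' : t.2 ≤ n := by have := Finset.mem_range.1 hj; omega
  refine ⟨t.1, t.2, hi', hj', ?_⟩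
  set c : ℝ := (cnt 0 (powersetCard t.1 (univ : Finset (Fin n)))
    (powersetCard t.2 univ) : ℝ) with hc
  have hc0 : 0 ≤ c := Nat.cast_nonneg _
  have h5 : g s 0 a b ^ n ≤ ((n : ℝ) + 1) ^ 2 * (c * (U t.1 * W t.2)) := by
    have h6 := h4.trans (h3 t ht)
    rw [div_le_iff₀ hn3] at h6
    linarith
  have hC1 := choose_le n t.1 hi' s a hs ha ha1
  have hC2 := choose_le n t.2 hj' s b hs hb hb1
  have c1 : (0 : ℝ) ≤ (n.choose t.1 : ℝ) ^ s := Real.rpow_nonneg (Nat.cast_nonneg _) _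
  have c2 : (0 : ℝ) ≤ (n.choose t.2 : ℝ) ^ s := Real.rpow_nonneg (Nat.cast_nonneg _) _
  rw [Real.mul_rpow (Nat.cast_nonneg _) (Nat.cast_nonneg _)]
  calc g s 0 a b ^ n * ((n.choose t.1 : ℝ) ^ s * (n.choose t.2 : ℝ) ^ s)
      ≤ ((n : ℝ) + 1) ^ 2 * (c * (U t.1 * W t.2)) *
        ((n.choose t.1 : ℝ) ^ s * (n.choose t.2 : ℝ) ^ s) :=
        mul_le_mul_of_nonneg_right h5 (mul_nonneg c1 c2)
    _ = ((n : ℝ) + 1) ^ 2 * c * (((n.choose t.1 : ℝ) ^ s * U t.1) *
        ((n.choose t.2 : ℝ) ^ s * W t.2)) := by ring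
    _ ≤ ((n : ℝ) + 1) ^ 2 * c * 1 := by
        refine mul_le_mul_of_nonneg_left ?_ (mul_nonneg (by positivity) hc0)
        exact mul_le_one₀ hC1 (mul_nonneg c2 (hW _)) hC2
    _ = ((n : ℝ) + 1) ^ 2 * c := mul_one _

end Run7.h642.IX
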